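import Pool.Agent.R196.PP.Pieces

/-!
MP_68f671_pr, pieces P2 (Hopf's maximal inequality for a doubly stochastic finite chain) and
P3c (the maximal inequality for cell sums in the plane, from P3a).
-/

namespace Pool.Agent.R983P

open Pool.Agent.R196.PP
open scoped BigOperators

section Chain
variable {X : Type}

/-- `Fm nx g n x = max_{0 ≤ j ≤ n} SR nx g j x` -/
noncomputable def Fm (nx : X → Fin 4 → X) (g : X → ℝ) : ℕ → X → ℝ
  | 0, _ => 0
  | n + 1, x => max (Fm nx g n x) (SR nx g (n + 1) x)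

lemma Fm_nonneg (nx : X → Fin 4 → X) (g : X → ℝ) (n : ℕ) (x : X) : 0 ≤ Fm nx g n x := by
  induction n with
  | zero => simp [Fm]
  | succ n ih => exact le_max_of_le_left ih

lemma Fm_mono (nx : X → Fin 4 → X) (g : X → ℝ) (n : ℕ) (x : X) :
    Fm nx g n x ≤ Fm nx g (n + 1) x := le_max_left _ _

lemma SR_le_Fm (nx : X → Fin 4 → X) (g : X → ℝ) (j n : ℕ) (h : j ≤ n) (x : X) :
    SR nx g j x ≤ Fm nx g n x := by
  induction n with
  | zero =>
    obtain rfl : j = 0 := by omega
    simp [SR, Fm]
  | succ n ih =>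
    rcases Nat.lt_or_ge n j with h1 | h1
    · obtain rfl : j = n + 1 := by omega
      exact le_max_right _ _
    · exact (ih h1).trans (Fm_mono nx g n x)

lemma PR_mono (nx : X → Fin 4 → X) {f g : X → ℝ} (h : ∀ x, f x ≤ g x) (x : X) :
    PR nx f x ≤ PR nx g x := by
  unfold PR
  exact mul_le_mul_of_nonneg_left (Finset.sum_le_sum fun e _ => h _) (by norm_num)

lemma PR_nonneg (nx : X → Fin 4 → X) {f : X → ℝ} (h : ∀ x, 0 ≤ f x) (x : X) :
    0 ≤ PR nx f x := by
  unfold PR
  exact mul_nonneg (by norm_num) (Finset.sum_nonneg fun e _ => h _)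

lemma PR_sub_const (nx : X → Fin 4 → X) (f : X → ℝ) (c : ℝ) (x : X) :
    PR nx (fun y => f y - c) x = PR nx f x - c := by
  unfold PR
  rw [Finset.sum_sub_distrib]
  simp
  ring

lemma SR_sub_const (nx : X → Fin 4 → X) (f : X → ℝ) (c : ℝ) (n : ℕ) (x : X) :
    SR nx (fun y => f y - c) n x = SR nx f n x - c * n := by
  induction n generalizing x with
  | zero => simp [SR]
  | succ n ih =>
    simp only [SR]
    have : SR nx (fun y => f y - c) n = fun y => SR nx f n y - c * n := funext ih
    rw [this, PR_sub_const]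
    push_cast
    ring

lemma Fm_key (nx : X → Fin 4 → X) (g : X → ℝ) (n : ℕ) (x : X) (h : 0 < Fm nx g n x) :
    Fm nx g n x ≤ g x + PR nx (Fm nx g n) x := by
  induction n with
  | zero => simp [Fm] at h
  | succ n ih =>
    rcases le_total (SR nx g (n + 1) x) (Fm nx g n x) with h1 | h1
    · have e1 : Fm nx g (n + 1) x = Fm nx g n x := max_eq_left h1
      rw [e1] at h
      have := ih h
      rw [e1]
      refine this.trans ?_
      gcongr
      exact PR_mono nx (fun y => Fm_mono nx g n y) x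
    · have e1 : Fm nx g (n + 1) x = SR nx g (n + 1) x := max_eq_right h1
      rw [e1]
      show g x + PR nx (SR nx g n) x ≤ _
      gcongr
      exact PR_mono nx (fun y => SR_le_Fm nx g n (n + 1) (by omega) y) x

lemma sum_PR [Fintype X] (nx : X → Fin 4 → X) (hb : ∀ e, Function.Bijective (fun x => nx x e))
    (g : X → ℝ) : ∑ x, PR nx g x = ∑ x, g x := by
  unfold PR
  rw [← Finset.mul_sum, Finset.sum_comm]
  have : ∀ e : Fin 4, ∑ x, g (nx x e) = ∑ x, g x := fun e =>
    Function.Bijective.sum_comp (hb e) g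
  simp only [this]
  simp

theorem P2_holds : P2 := by
  classical
  intro X _ nx hb f hf lam hlam
  set g : X → ℝ := fun y => f y - lam with hg
  -- inequality for each `n`
  have step : ∀ n : ℕ, lam * ((Finset.univ.filter fun x => 0 < Fm nx g n x).card : ℝ) ≤ ∑ x, f x := by
    intro n
    have h0 : ∑ x, (Fm nx g n x - PR nx (Fm nx g n) x) = 0 := by
      rw [Finset.sum_sub_distrib, sum_PR nx hb, sub_self]
    have h1 : ∑ x, (Fm nx g n x - PR nx (Fm nx g n) x) ≤
        ∑ x, (if 0 < Fm nx g n x then g x else 0) := by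
      refine Finset.sum_le_sum fun x _ => ?_
      by_cases hx : 0 < Fm nx g n x
      · rw [if_pos hx]
        have := Fm_key nx g n x hx
        linarith
      · rw [if_neg hx]
        have h2 := PR_nonneg nx (Fm_nonneg nx g n) x
        linarith [not_lt.mp hx]
    rw [h0, ← Finset.sum_filter] at h1
    have h2 : ∑ x ∈ Finset.univ.filter (fun x => 0 < Fm nx g n x), g x =
        ∑ x ∈ Finset.univ.filter (fun x => 0 < Fm nx g n x), f x -
          lam * ((Finset.univ.filter fun x => 0 < Fm nx g n x).card : ℝ) := by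
      rw [hg, Finset.sum_sub_distrib, Finset.sum_const, nsmul_eq_mul]
      ring
    have h3 : ∑ x ∈ Finset.univ.filter (fun x => 0 < Fm nx g n x), f x ≤ ∑ x, f x :=
      Finset.sum_le_sum_of_subset_of_nonneg (Finset.filter_subset _ _) (fun x _ _ => hf x)
    linarith
  -- choose `N` large
  have hN : ∃ N : ℕ, ∀ x : X, (∃ n : ℕ, 1 ≤ n ∧ lam * n < SR nx f n x) → 0 < Fm nx g N x := by
    choose! k hk using fun (x : X) (h : ∃ n : ℕ, 1 ≤ n ∧ lam * n < SR nx f n x) => h
    refine ⟨Finset.univ.sup k, fun x hx => ?_⟩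
    have h1 := hk x hx
    have h2 : SR nx g (k x) x ≤ Fm nx g (Finset.univ.sup k) x :=
      SR_le_Fm nx g _ _ (Finset.le_sup (Finset.mem_univ x)) x
    rw [hg, SR_sub_const] at h2
    linarith [h1.2]
  obtain ⟨N, hN⟩ := hN
  refine le_trans ?_ (step N)
  refine mul_le_mul_of_nonneg_left ?_ hlam.le
  have h4 : Nat.card {x : X // ∃ n : ℕ, 1 ≤ n ∧ lam * n < SR nx f n x} ≤
      (Finset.univ.filter fun x => 0 < Fm nx g N x).card := by
    rw [Nat.card_eq_fintype_card, Fintype.card_subtype]
    refine Finset.card_le_card fun x hx => ?_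
    simp only [Finset.mem_filter, Finset.mem_univ, true_and] at hx ⊢
    exact hN x hx
  exact_mod_cast h4

end Chain

section Plane

variable {M N Lm : ℕ} {A : Set Pt}

lemma per_int {M N : ℕ} {α : Type*} {f : Pt → α} (hf : Per M N f) (v : Pt) (i j : ℤ) :
    f (v.1 + i * M, v.2 + j * N) = f v := by
  have h1 : ∀ (i : ℤ) (v : Pt), f (v.1 + i * M, v.2) = f v := by
    intro i
    induction i using Int.induction_on with
    | zero => intro v; simp
    | succ k ih =>
      intro v
      have := hf.1 (v.1 + k * M, v.2)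
      simp only at this
      rw [show v.1 + ((k : ℤ) + 1) * M = v.1 + k * M + M by ring, this]
      exact ih v
    | pred k ih =>
      intro v
      have := hf.1 (v.1 + (-(k : ℤ) - 1) * M, v.2)
      simp only at this
      rw [← this, show v.1 + (-(k : ℤ) - 1) * M + M = v.1 + (-(k : ℤ)) * M by ring]
      exact ih v
  have h2 : ∀ (j : ℤ) (v : Pt), f (v.1, v.2 + j * N) = f v := by
    intro j
    induction j using Int.induction_on with
    | zero => intro v; simp
    | succ k ih =>
      intro v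
      have := hf.2 (v.1, v.2 + k * N)
      simp only at this
      rw [show v.2 + ((k : ℤ) + 1) * N = v.2 + k * N + N by ring, this]
      exact ih v
    | pred k ih =>
      intro v
      have := hf.2 (v.1, v.2 + (-(k : ℤ) - 1) * N)
      simp only at this
      rw [← this, show v.2 + (-(k : ℤ) - 1) * N + N = v.2 + (-(k : ℤ)) * N by ring]
      exact ih v
  have h3 := h1 i (v.1, v.2 + j * N)
  simp only at h3
  rw [h3, h2]

lemma mem_per (hA : GEnv M N Lm A) (v : Pt) (i j : ℤ) :
    ((v.1 + i * M, v.2 + j * N) : Pt) ∈ A ↔ v ∈ A := by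
  have hp : Per M N (fun v : Pt => v ∈ A) :=
    ⟨fun v => propext (hA.perM v), fun v => propext (hA.perN v)⟩
  have := per_int hp v i j
  exact iff_of_eq this

/-- reduction modulo the periods -/
def red (M N : ℕ) (v : Pt) : Pt := (v.1 % M, v.2 % N)

lemma red_eq (M N : ℕ) (v : Pt) :
    red M N v = (v.1 + (-(v.1 / M)) * M, v.2 + (-(v.2 / N)) * N) := by
  unfold red
  rw [Int.emod_def, Int.emod_def]
  ext <;> simp <;> ring

lemma red_mem_cell (hM : 0 < M) (hN : 0 < N) (v : Pt) : red M N v ∈ cell M N := by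
  unfold cell red
  rw [Finset.mem_product, Finset.mem_Ico, Finset.mem_Ico]
  have h1 : (0 : ℤ) < M := by exact_mod_cast hM
  have h2 : (0 : ℤ) < N := by exact_mod_cast hN
  exact ⟨⟨Int.emod_nonneg _ h1.ne', Int.emod_lt_of_pos _ h1⟩,
    ⟨Int.emod_nonneg _ h2.ne', Int.emod_lt_of_pos _ h2⟩⟩

lemma red_of_mem_cell {v : Pt} (hv : v ∈ cell M N) : red M N v = v := by
  unfold cell at hv
  rw [Finset.mem_product, Finset.mem_Ico, Finset.mem_Ico] at hv
  unfold red
  ext
  · exact Int.emod_eq_of_lt hv.1.1 hv.1.2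
  · exact Int.emod_eq_of_lt hv.2.1 hv.2.2

lemma red_transl (v : Pt) (i j : ℤ) : red M N (v.1 + i * M, v.2 + j * N) = red M N v := by
  unfold red
  ext <;> simp

lemma red_mem (hA : GEnv M N Lm A) {v : Pt} (hv : v ∈ A) : red M N v ∈ A := by
  rw [red_eq]
  exact (mem_per hA v _ _).2 hv

lemma nb_red (h3a : P3a) (hA : GEnv M N Lm A) (v : Pt) (e : Fin 4) :
    red M N (nb A (red M N v) e) = red M N (nb A v e) := by
  rw [red_eq M N v, (h3a M N Lm A hA).2.2.1 v e]
  exact red_transl _ _ _

lemma SR_per (h3a : P3a) (hA : GEnv M N Lm A) {f : Pt → ℝ} (hf : Per M N f) (n : ℕ) :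
    ∀ (v : Pt) (i j : ℤ), SR (nb A) f n (v.1 + i * M, v.2 + j * N) = SR (nb A) f n v := by
  induction n with
  | zero => intro v i j; simp [SR]
  | succ n ih =>
    intro v i j
    simp only [SR, PR]
    rw [per_int hf v i j]
    congr 2
    refine Finset.sum_congr rfl fun e _ => ?_
    rw [(h3a M N Lm A hA).2.2.1 v e]
    exact ih _ _ _

lemma SR_red (h3a : P3a) (hA : GEnv M N Lm A) {f : Pt → ℝ} (hf : Per M N f) (n : ℕ) (v : Pt) :
    SR (nb A) f n (red M N v) = SR (nb A) f n v := by
  rw [red_eq]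
  exact SR_per h3a hA hf n v _ _

open Classical in
theorem P3c_holds (h3a : P3a) : P3c := by
  intro M N Lm A hA f hf hf0 lam hlam
  have hM : 0 < M := hA.oddM.pos
  have hN : 0 < N := hA.oddN.pos
  have ha := h3a M N Lm A hA
  -- the finite chain
  let s : Finset Pt := (cell M N).filter (· ∈ A)
  have hs : ∀ {v : Pt}, v ∈ s ↔ v ∈ cell M N ∧ v ∈ A := fun {v} => Finset.mem_filter
  let nx : s → Fin 4 → s := fun v e =>
    ⟨red M N (nb A v.1 e), hs.2 ⟨red_mem_cell hM hN _, red_mem hA (ha.1 _ _)⟩⟩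
  have hinj : ∀ e, Function.Injective (fun x => nx x e) := by
    intro e
    have hleft : Function.LeftInverse (fun x => nx x (e + 2)) (fun x => nx x e) := by
      intro x
      apply Subtype.ext
      show red M N (nb A (red M N (nb A x.1 e)) (e + 2)) = x.1
      rw [nb_red h3a hA, ha.2.2.2.2 x.1 (hs.1 x.2).2 e]
      exact red_of_mem_cell (hs.1 x.2).1
    exact hleft.injective
  have hbij : ∀ e, Function.Bijective (fun x => nx x e) := fun e =>
    Finite.injective_iff_bijective.1 (hinj e)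
  have hSR : ∀ (n : ℕ) (x : s), SR nx (fun y => f y.1) n x = SR (nb A) f n x.1 := by
    intro n
    induction n with
    | zero => intro x; simp [SR]
    | succ n ih =>
      intro x
      simp only [SR, PR]
      congr 2
      refine Finset.sum_congr rfl fun e _ => ?_
      rw [ih]
      exact SR_red h3a hA hf n _
  have key := P2_holds nx hbij (fun y => f y.1) (fun y => hf0 y.1 (hs.1 y.2).2) lam hlam
  have hsum : ∑ x : s, f x.1 = csum M N A f := by
    unfold csum
    exact Finset.sum_coe_sort s f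
  rw [hsum] at key
  refine le_trans (le_of_eq ?_) key
  congr 2
  refine Nat.card_congr ?_
  refine ⟨fun v => ⟨⟨v.1, hs.2 ⟨v.2.1, v.2.2.1⟩⟩, ?_⟩, fun x => ⟨x.1.1, (hs.1 x.1.2).1, (hs.1 x.1.2).2, ?_⟩,
    fun v => rfl, fun x => rfl⟩
  · obtain ⟨n, h1, h2⟩ := v.2.2.2
    exact ⟨n, h1, by rw [hSR]; exact h2⟩
  · obtain ⟨n, h1, h2⟩ := x.2
    exact ⟨n, h1, by rw [hSR] at h2; exact h2⟩

end Plane

end Pool.Agent.R983P
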